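import Pool.Agent.Helper13.ZL.Stmts

set_option autoImplicit false

open scoped Classical

namespace Pool.Agent.Helper13.ZL

open Pool.Agent.Helper14.BSC

theorem zld_lt_iff {F : Type} [Field F] (A : ValuationSubring F) {x : F} (hx : x ≠ 0) :
    A.valuation x < 1 ↔ x⁻¹ ∉ A := by
  rw [← ValuationSubring.valuation_le_one_iff, map_inv₀, not_le]
  have h0 : A.valuation x ≠ 0 := (Valuation.ne_zero_iff _).2 hx
  rw [one_lt_inv₀ (zero_lt_iff.2 h0)]

theorem zld_comap {K Ω : Type} [Field K] [Field Ω] [Algebra K Ω] (O : ValuationSubring K)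
    (W : ValuationSubring Ω) (h : W.comap (algebraMap K Ω) = O) (x : K) (hx : O.valuation x < 1) :
    W.valuation (algebraMap K Ω x) < 1 := by
  by_cases h0 : x = 0
  · rw [h0, map_zero, map_zero]
    exact zero_lt_one
  · have h1 : algebraMap K Ω x ≠ 0 := by
      intro h2
      exact h0 ((algebraMap K Ω).injective (by rw [h2, map_zero]))
    rw [zld_lt_iff W h1, ← map_inv₀]
    rw [zld_lt_iff O h0] at hx
    intro h3
    apply hx
    rw [← h]
    exact h3

theorem zld_fg (k : Type) [Field k] [NumberField k] : (⊤ : IntermediateField ℚ k).FG := by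
  rw [IntermediateField.fg_top_iff]
  infer_instance

theorem zld_finset (n : ℕ) : ∃ A : Finset ℚ, A.card = n ∧ ∀ c ∈ A, c ≠ 0 := by
  refine ⟨(Finset.range n).image (fun i : ℕ => ((i : ℚ) + 1)), ?_, ?_⟩
  · rw [Finset.card_image_of_injective, Finset.card_range]
    intro a b hab
    simpa using hab
  · intro c hc
    rw [Finset.mem_image] at hc
    obtain ⟨i, _, rfl⟩ := hc
    positivity

theorem st_ZLD (hDLIB : ST_DLIB) (hVEMB : ST_VEMB) (hRK : ST_RK) (hCOI : ST_COI) (hZERO : ST_ZERO)
    (hDIVC : ST_DIVC) (hONE : ST_ONE) (hIFD : ST_IFD) (hALG : ST_ALG) (hHEN : ST_HEN) : ST_ZLD := by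
  intro k K Ω _ _ _ _ _ _ _ _ _ _ D htr hfix
  obtain ⟨D1, D2, D3, D4⟩ := hDLIB k
  constructor
  · rintro ⟨O, -, hkO, hres, W, hW, hinv⟩
    obtain ⟨t, ht, -⟩ := htr
    have key : ∃ u : K, Transcendental k u ∧ u ∈ O := by
      rcases O.mem_or_inv_mem t with h | h
      · exact ⟨t, ht, h⟩
      · refine ⟨t⁻¹, ?_, h⟩
        intro hal
        apply ht
        have := hal.inv
        rwa [inv_inv] at this
    obtain ⟨u, hu, huO⟩ := key
    obtain ⟨c, hc⟩ := hres u huO
    have hmem : algebraMap K Ω (1 + (u - algebraMap k K c)) ∈ LL D := fun g _ => hfix g _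
    have hkW : ∀ c : k, algebraMap k Ω c ∈ W := by
      intro c
      rw [IsScalarTower.algebraMap_apply k K Ω]
      have h1 := hkO c
      rw [← hW] at h1
      exact h1
    refine ⟨⟨_, hmem⟩, ?_, ?_⟩
    · intro b hb
      have h1 : algebraMap K Ω (1 + (u - algebraMap k K c)) = algebraMap k Ω b :=
        congrArg (fun z : LL D => (z : Ω)) hb
      rw [IsScalarTower.algebraMap_apply k K Ω] at h1
      have h2 := (algebraMap K Ω).injective h1
      have h3 : u = algebraMap k K (b - 1 + c) := by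
        rw [map_add, map_sub, map_one, ← h2]
        ring
      apply hu
      rw [h3]
      exact isAlgebraic_algebraMap _
    · have h1 : W.valuation (((⟨_, hmem⟩ : LL D) : Ω) - 1) < 1 := by
        have h2 : ((⟨algebraMap K Ω (1 + (u - algebraMap k K c)), hmem⟩ : LL D) : Ω) - 1 =
            algebraMap K Ω (u - algebraMap k K c) := by
          show algebraMap K Ω (1 + (u - algebraMap k K c)) - 1 = _
          rw [map_add, map_one]
          ring
        rw [h2]
        exact zld_comap O W hW _ hc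
      have h3 : {v : Pl k | CO D v ⟨_, hmem⟩} = Set.univ := by
        apply Set.eq_univ_of_forall
        intro v N hN
        obtain ⟨y, hy⟩ := hHEN k Ω D W hkW hinv ⟨_, hmem⟩ h1 N hN
        refine ⟨1, y, ?_, ?_⟩
        · rw [map_one, one_mul]
          exact hy
        · show v.valuation k (1 - 1) < 1
          rw [sub_self, map_zero]
          exact zero_lt_one
      rw [h3]
      exact D4
  · rintro ⟨h, hnc, hdens⟩
    have hsub : {v : Pl k | CO D v h} ⊆ (SetZ D (1 - h) ∪ SetZ D h) ∪ SetZ D h⁻¹ := by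
      intro v hv
      obtain ⟨p, hp, σ, E₀, hov, hfd, hE⟩ := hVEMB k v
      obtain ⟨P, -⟩ := hRK k Ω D p σ E₀ hfd hE
      by_cases hC : h ∈ P.C
      · left
        by_cases h0 : P.φ ⟨h, hC⟩ = 0
        · right
          exact ⟨p, hp, σ, P, hC, hov, by rw [h0, norm_zero]; exact one_pos⟩
        · left
          have h1 := hCOI k Ω D v p σ P hov ⟨h, hC⟩ h0 hv
          refine ⟨p, hp, σ, P, sub_mem (one_mem _) hC, hov, ?_⟩
          have h2 : P.φ ⟨1 - h, sub_mem (one_mem _) hC⟩ = 1 - P.φ ⟨h, hC⟩ := by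
            have : (⟨1 - h, sub_mem (one_mem _) hC⟩ : P.C) = 1 - ⟨h, hC⟩ := rfl
            rw [this, map_sub, map_one]
          rw [h2, norm_sub_rev]
          exact h1
      · right
        have hi : h⁻¹ ∈ P.C := (P.C.mem_or_inv_mem h).resolve_left hC
        refine ⟨p, hp, σ, P, hi, hov, ?_⟩
        have h0 : P.φ ⟨h⁻¹, hi⟩ = 0 := by
          rw [P.ker]
          right
          show (h⁻¹)⁻¹ ∉ P.C
          rw [inv_inv]
          exact hC
        rw [h0, norm_zero]
        exact one_pos
    have key : ∃ f : LL D, (∀ c : k, f ≠ algebraMap k (LL D) c) ∧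
        ¬ NumberField.Set.HasDirichletDensity (SetZ D f) 0 := by
      by_contra hcon
      push Not at hcon
      apply hdens
      refine D1 _ _ hsub (D2 _ _ (D2 _ _ ?_ ?_) ?_)
      · apply hcon
        intro c hc
        apply hnc (1 - c)
        rw [map_sub, map_one, ← hc]
        ring
      · exact hcon h hnc
      · apply hcon
        intro c hc
        apply hnc c⁻¹
        rw [map_inv₀, ← hc, inv_inv]
    obtain ⟨f, hf, hfd⟩ := key
    have hval := hZERO k Ω D f hfd
    have hNR := hDIVC k Ω D f hval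
    obtain ⟨A, hA, hA0⟩ := zld_finset (Module.finrank ℚ k)
    obtain ⟨p, hp, σ, P, hP⟩ := hONE k Ω D ℚ (zld_fg k) f hf (hALG k K Ω D htr) A hA (by
      intro c hc
      apply hNR
      intro h0
      exact hA0 c hc ((algebraMap ℚ k).injective (by rw [h0, map_zero])))
    haveI := hp
    obtain ⟨t, ht, -⟩ := htr
    exact hIFD k K Ω D p σ P ⟨t, ht⟩ hfix hP

end Pool.Agent.Helper13.ZL
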